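import Mathlib
import Pool.Agent.W513.Mod.Ring

/-! Points of the projective line with given coordinates. -/

open CategoryTheory Limits Opposite AlgebraicGeometry

set_option backward.isDefEq.respectTransparency false
set_option linter.unusedSimpArgs false
set_option linter.unusedSectionVars false

noncomputable section

universe u

namespace Pool.Agent.W363.MW

/-- the grading of `F[X₀, X₁]` by the degree -/
abbrev gr (F : Type u) [Field F] : ℕ → Submodule F (MvPolynomial (Fin 2) F) :=
  MvPolynomial.homogeneousSubmodule (Fin 2) F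

instance (F : Type u) [Field F] : GradedAlgebra (gr F) := MvPolynomial.gradedAlgebra

/-- the map from the constants to the forms of degree zero -/
def P1c (F : Type u) [Field F] : CommRingCat.of F ⟶ CommRingCat.of (gr F 0) :=
  CommRingCat.ofHom (algebraMap F (gr F 0))

/-- the structure map of the projective line over `F` -/
def P1h (F : Type u) [Field F] : Proj (gr F) ⟶ Spec (.of F) :=
  Proj.toSpecZero (gr F) ≫ Spec.map (P1c F)

lemma hom_scale {R S : Type u} [CommRing R] [CommRing S] {n : ℕ} {φ : MvPolynomial (Fin 2) R}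
    (hφ : φ.IsHomogeneous n) (f : R →+* S) (c : S) (v : Fin 2 → S) :
    MvPolynomial.eval₂ f (fun i => c * v i) φ = c ^ n * MvPolynomial.eval₂ f v φ := by
  rw [MvPolynomial.eval₂_eq', MvPolynomial.eval₂_eq', Finset.mul_sum]
  refine Finset.sum_congr rfl (fun d hd => ?_)
  have h1 : d 0 + d 1 = n := by
    have := hφ (MvPolynomial.mem_support_iff.1 hd)
    simpa [Finsupp.weight_apply, Finsupp.sum_fintype] using this
  simp only [Fin.prod_univ_two, mul_pow, ← h1, pow_add]
  ring

variable {F : Type u} [Field F] {R : Type u} [CommRing R] [Algebra F R]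

/-- evaluation of homogeneous fractions -/
def evA (f : MvPolynomial (Fin 2) F) (v : Fin 2 → R) (hu : IsUnit (MvPolynomial.aeval v f)) :
    HomogeneousLocalization.Away (gr F) f →+* R :=
  (IsLocalization.Away.lift f (g := (MvPolynomial.aeval v : _ →ₐ[F] R).toRingHom) hu).comp
    (algebraMap (HomogeneousLocalization.Away (gr F) f) (Localization.Away f))

lemma evA_mk (f : MvPolynomial (Fin 2) F) (v : Fin 2 → R) (hu : IsUnit (MvPolynomial.aeval v f))
    {d : ℕ} (hf : f ∈ gr F d) (n : ℕ) (x : MvPolynomial (Fin 2) F) (hx : x ∈ gr F (n • d)) :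
    evA f v hu (HomogeneousLocalization.Away.mk (gr F) hf n x hx) * (MvPolynomial.aeval v f) ^ n =
      MvPolynomial.aeval v x := by
  have h1 : (algebraMap (HomogeneousLocalization.Away (gr F) f) (Localization.Away f))
      (HomogeneousLocalization.Away.mk (gr F) hf n x hx) *
      algebraMap _ (Localization.Away f) (f ^ n) = algebraMap _ (Localization.Away f) x := by
    rw [HomogeneousLocalization.algebraMap_apply, HomogeneousLocalization.Away.val_mk,
      Localization.mk_eq_mk', IsLocalization.mk'_spec]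
  have h2 := congrArg (IsLocalization.Away.lift f
    (g := (MvPolynomial.aeval v : _ →ₐ[F] R).toRingHom) hu) h1
  rw [map_mul, IsLocalization.Away.lift_eq, IsLocalization.Away.lift_eq, map_pow] at h2
  exact h2

/-- composition with a ring map -/
lemma evA_comp {R' : Type u} [CommRing R'] [Algebra F R'] (g : R →ₐ[F] R')
    (f : MvPolynomial (Fin 2) F) (v : Fin 2 → R) (hu : IsUnit (MvPolynomial.aeval v f))
    (hu' : IsUnit (MvPolynomial.aeval (fun i => g (v i)) f)) :
    (g : R →+* R').comp (evA f v hu) = evA f (fun i => g (v i)) hu' := by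
  rw [evA, evA, ← RingHom.comp_assoc]
  congr 1
  apply IsLocalization.ringHom_ext (Submonoid.powers f)
  rw [RingHom.comp_assoc, IsLocalization.Away.lift_comp, IsLocalization.Away.lift_comp]
  apply MvPolynomial.ringHom_ext
  · intro r; simp
  · intro i; simp

/-- scaling the coordinates does not change the evaluation -/
lemma evA_scale (f : MvPolynomial (Fin 2) F) {d : ℕ} (hf : f ∈ gr F d) (c : R)
    (v : Fin 2 → R) (hu : IsUnit (MvPolynomial.aeval v f))
    (hu' : IsUnit (MvPolynomial.aeval (fun i => c * v i) f)) :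
    evA f (fun i => c * v i) hu' = evA f v hu := by
  ext y
  obtain ⟨n, x, hx, rfl⟩ := HomogeneousLocalization.Away.mk_surjective (gr F) hf y
  have h1 := evA_mk f v hu hf n x hx
  have h2 := evA_mk f _ hu' hf n x hx
  have h3 : MvPolynomial.aeval (fun i => c * v i) x = c ^ (n • d) * MvPolynomial.aeval v x :=
    hom_scale hx (algebraMap F R) c v
  have h4 : MvPolynomial.aeval (fun i => c * v i) f = c ^ d * MvPolynomial.aeval v f :=
    hom_scale hf (algebraMap F R) c v
  have h5 : IsUnit ((MvPolynomial.aeval (fun i => c * v i) f) ^ n) := hu'.pow n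
  refine h5.mul_right_cancel ?_
  rw [h2, h3, ← h1, h4, mul_pow, ← pow_mul, smul_eq_mul, mul_comm n d]
  ring

/-- compatibility with localisation -/
lemma evA_awayMap (f g : MvPolynomial (Fin 2) F) {e : ℕ} (hg : g ∈ gr F e) {x}
    (hx : x = f * g) (v : Fin 2 → R) (hu : IsUnit (MvPolynomial.aeval v f))
    (hu' : IsUnit (MvPolynomial.aeval v x)) :
    (evA x v hu').comp (HomogeneousLocalization.awayMap (gr F) hg hx) = evA f v hu := by
  ext y
  rw [evA, evA, RingHom.comp_apply, RingHom.comp_apply, RingHom.comp_apply,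
    HomogeneousLocalization.algebraMap_apply, HomogeneousLocalization.algebraMap_apply,
    HomogeneousLocalization.val_awayMap, ← RingHom.comp_apply]
  congr 1
  apply IsLocalization.ringHom_ext (Submonoid.powers f)
  rw [RingHom.comp_assoc, IsLocalization.Away.lift_comp]
  ext z
  · simp
  · simp

/-- the point of the projective line with coordinates `v`, read in the chart `f ≠ 0` -/
def ptf (f : MvPolynomial (Fin 2) F) {d : ℕ} (hf : f ∈ gr F d) (hd : 0 < d) (v : Fin 2 → R)
    (hu : IsUnit (MvPolynomial.aeval v f)) : Spec (.of R) ⟶ Proj (gr F) :=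
  Spec.map (CommRingCat.ofHom (evA f v hu)) ≫ Proj.awayι (gr F) f hf hd

lemma ptf_str (f : MvPolynomial (Fin 2) F) {d : ℕ} (hf : f ∈ gr F d) (hd : 0 < d) (v : Fin 2 → R)
    (hu : IsUnit (MvPolynomial.aeval v f)) :
    ptf f hf hd v hu ≫ P1h F = Spec.map (CommRingCat.ofHom (algebraMap F R)) := by
  change (Spec.map _ ≫ Proj.awayι (gr F) f hf hd) ≫ (Proj.toSpecZero (gr F) ≫
    Spec.map (CommRingCat.ofHom (algebraMap F (gr F 0)))) = _
  rw [Category.assoc, Proj.awayι_toSpecZero_assoc, ← Spec.map_comp, ← Spec.map_comp,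
    ← CommRingCat.ofHom_comp, ← CommRingCat.ofHom_comp]
  congr 2
  ext r
  have e : Localization.mk (algebraMap F (MvPolynomial (Fin 2) F) r) (1 : Submonoid.powers f) =
      algebraMap (MvPolynomial (Fin 2) F) (Localization.Away f) (algebraMap F _ r) :=
    Localization.mk_one_eq_algebraMap (M := Submonoid.powers f) _
  have e2 : IsLocalization.Away.lift (S := Localization.Away f) f
      (g := (MvPolynomial.aeval v : _ →ₐ[F] R).toRingHom) hu
      (algebraMap (MvPolynomial (Fin 2) F) (Localization.Away f) (algebraMap F _ r)) = _ :=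
    IsLocalization.Away.lift_eq f hu _
  have e3 := congrArg (IsLocalization.Away.lift (S := Localization.Away f) f
      (g := (MvPolynomial.aeval v : _ →ₐ[F] R).toRingHom) hu) e
  exact e3.trans (e2.trans ((MvPolynomial.aeval v).commutes r))

lemma ptf_mul (f g : MvPolynomial (Fin 2) F) {d e : ℕ} (hf : f ∈ gr F d) (hd : 0 < d)
    (hg : g ∈ gr F e) {x} (hx : x = f * g) (v : Fin 2 → R)
    (hu : IsUnit (MvPolynomial.aeval v f)) (hu' : IsUnit (MvPolynomial.aeval v x))
    (hxm : x ∈ gr F (d + e)) (hm : 0 < d + e) :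
    ptf f hf hd v hu = ptf x hxm hm v hu' := by
  rw [ptf, ptf, ← evA_awayMap f g hg hx v hu hu', CommRingCat.ofHom_comp, Spec.map_comp,
    Category.assoc, Proj.SpecMap_awayMap_awayι]

lemma ptf_comp {R' : Type u} [CommRing R'] [Algebra F R'] (g : R →ₐ[F] R')
    (f : MvPolynomial (Fin 2) F) {d : ℕ} (hf : f ∈ gr F d) (hd : 0 < d)
    (v : Fin 2 → R) (hu : IsUnit (MvPolynomial.aeval v f))
    (hu' : IsUnit (MvPolynomial.aeval (fun i => g (v i)) f)) :
    Spec.map (CommRingCat.ofHom (g : R →+* R')) ≫ ptf f hf hd v hu =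
      ptf f hf hd (fun i => g (v i)) hu' := by
  rw [ptf, ptf, ← evA_comp g f v hu hu', CommRingCat.ofHom_comp, Spec.map_comp, Category.assoc]

lemma ptf_scale (f : MvPolynomial (Fin 2) F) {d : ℕ} (hf : f ∈ gr F d) (hd : 0 < d) (c : R)
    (v : Fin 2 → R) (hu : IsUnit (MvPolynomial.aeval v f))
    (hu' : IsUnit (MvPolynomial.aeval (fun i => c * v i) f)) :
    ptf f hf hd (fun i => c * v i) hu' = ptf f hf hd v hu := by
  rw [ptf, ptf, evA_scale f hf c v hu hu']

/-- a change of the chart -/
lemma ptf_chart (f g : MvPolynomial (Fin 2) F) {d e : ℕ} (hf : f ∈ gr F d) (hd : 0 < d)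
    (hg : g ∈ gr F e) (he : 0 < e) (v : Fin 2 → R)
    (hu : IsUnit (MvPolynomial.aeval v f)) (hu' : IsUnit (MvPolynomial.aeval v g)) :
    ptf f hf hd v hu = ptf g hg he v hu' := by
  have hx : IsUnit (MvPolynomial.aeval v (f * g)) := by
    rw [map_mul]
    exact hu.mul hu'
  have hm : f * g ∈ gr F (d + e) := SetLike.mul_mem_graded hf hg
  have hm' : f * g ∈ gr F (e + d) := by rw [add_comm]; exact hm
  have h1 := ptf_mul f g hf hd hg rfl v hu hx hm (by omega)
  have h2 := ptf_mul g f hg he hf (mul_comm f g) v hu' hx hm' (by omega)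
  rw [h1, h2]
  congr 1
  exact add_comm _ _

open Polynomial in
/-- the coordinates of the `i`-th affine chart -/
def cv (F : Type u) [Field F] (i : Fin 2) : Fin 2 → F[X] := fun k => if k = i then 1 else X

lemma X_mem (i : Fin 2) : (MvPolynomial.X i : MvPolynomial (Fin 2) F) ∈ gr F 1 :=
  MvPolynomial.isHomogeneous_X F i

variable (F) in
lemma cv_unit (i : Fin 2) : IsUnit (MvPolynomial.aeval (cv F i) (MvPolynomial.X i :
    MvPolynomial (Fin 2) F)) := by
  simp [cv]

lemma cv_one (i : Fin 2) : MvPolynomial.aeval (cv F i) (MvPolynomial.X i :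
    MvPolynomial (Fin 2) F) = 1 := by
  simp [cv]

lemma cv_swap (i : Fin 2) : MvPolynomial.aeval (cv F i) (MvPolynomial.X i.rev :
    MvPolynomial (Fin 2) F) = Polynomial.X := by
  fin_cases i <;> simp [cv]

/-- a homogeneous polynomial is determined by its dehomogenisation -/
lemma dehom_inj (i : Fin 2) {n : ℕ} (x : MvPolynomial (Fin 2) F) (hx : x ∈ gr F n)
    (h : MvPolynomial.aeval (cv F i) x = 0) : x = 0 := by
  have hcoeff : ∀ m : Fin 2 →₀ ℕ, (MvPolynomial.aeval (cv F i)
      (MvPolynomial.monomial m (x.coeff m)) : Polynomial F) =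
      Polynomial.monomial (m i.rev) (x.coeff m) := by
    intro m
    rw [MvPolynomial.aeval_monomial, ← Polynomial.C_mul_X_pow_eq_monomial, Finsupp.prod_fintype _ _
      (by intro k; rw [pow_zero]), Fin.prod_univ_two]
    fin_cases i <;> simp [cv]
  ext m
  rw [MvPolynomial.coeff_zero]
  by_contra hm
  have hdeg : ∀ m', x.coeff m' ≠ 0 → m' 0 + m' 1 = n := by
    intro m' hm'
    have := hx hm'
    simpa [Finsupp.weight_apply, Finsupp.sum_fintype] using this
  have h1 : (MvPolynomial.aeval (cv F i) x : Polynomial F) = ∑ m' ∈ x.support,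
      Polynomial.monomial (m' i.rev) (x.coeff m') := by
    conv_lhs => rw [x.as_sum]
    rw [map_sum]
    exact Finset.sum_congr rfl (fun m' _ => hcoeff m')
  have h2 := congrArg (fun p : Polynomial F => p.coeff (m i.rev)) h1
  simp only [Polynomial.finsetSum_coeff, Polynomial.coeff_monomial] at h2
  rw [h, Polynomial.coeff_zero, Finset.sum_eq_single m] at h2
  · rw [if_pos rfl] at h2
    exact hm h2.symm
  · intro m' hm' hne
    rw [if_neg]
    intro heq
    apply hne
    have e1 := hdeg m' (MvPolynomial.mem_support_iff.1 hm')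
    have e2 := hdeg m hm
    have e3 : m' 0 = m 0 ∧ m' 1 = m 1 := by
      rcases (by fin_cases i <;> simp : i = 0 ∨ i = 1) with rfl | rfl
      · have e4 : m' 1 = m 1 := heq
        omega
      · have e4 : m' 0 = m 0 := heq
        omega
    ext k
    rcases (by fin_cases k <;> simp : k = 0 ∨ k = 1) with rfl | rfl
    · exact e3.1
    · exact e3.2
  · intro hm'
    exact absurd (MvPolynomial.notMem_support_iff.1 hm') hm

lemma evA_bij (i : Fin 2) : Function.Bijective (evA (MvPolynomial.X i) (cv F i) (cv_unit F i)) := by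
  constructor
  · rw [injective_iff_map_eq_zero]
    intro y hy
    obtain ⟨n, x, hx, rfl⟩ := HomogeneousLocalization.Away.mk_surjective (gr F) (X_mem i) y
    have h1 := evA_mk _ _ (cv_unit F i) (X_mem i) n x hx
    rw [hy, zero_mul] at h1
    have h2 := dehom_inj i x hx h1.symm
    subst h2
    apply HomogeneousLocalization.val_injective
    rw [HomogeneousLocalization.Away.val_mk, HomogeneousLocalization.val_zero,
      Localization.mk_zero]
  · intro p
    induction p using Polynomial.induction_on' with
    | add p q hp hq =>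
      obtain ⟨y, rfl⟩ := hp
      obtain ⟨z, rfl⟩ := hq
      exact ⟨y + z, map_add _ _ _⟩
    | monomial n a =>
      have hm : MvPolynomial.C a * MvPolynomial.X i.rev ^ n ∈ gr F (n • 1) := by
        have := (MvPolynomial.isHomogeneous_C (Fin 2) a).mul
          ((MvPolynomial.isHomogeneous_X F i.rev).pow n)
        simpa using this
      refine ⟨HomogeneousLocalization.Away.mk (gr F) (X_mem i) n _ hm, ?_⟩
      have h1 := evA_mk _ _ (cv_unit F i) (X_mem i) n _ hm
      rw [cv_one, one_pow, mul_one] at h1
      rw [h1, map_mul, map_pow, cv_swap, ← Polynomial.C_mul_X_pow_eq_monomial]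
      simp

variable (F)

/-- the `i`-th chart of the projective line -/
def chL (i : Fin 2) : Spec (.of (Polynomial F)) ⟶ Proj (gr F) :=
  ptf (MvPolynomial.X i) (X_mem i) one_pos (cv F i) (cv_unit F i)

instance (i : Fin 2) : IsIso (Spec.map (CommRingCat.ofHom
    (evA (MvPolynomial.X i) (cv F i) (cv_unit F i)))) := by
  let e := (RingEquiv.ofBijective _ (evA_bij (F := F) i)).toCommRingCatIso
  exact inferInstanceAs (IsIso (Spec.map e.hom))

instance (i : Fin 2) : IsOpenImmersion (chL F i) := by
  unfold chL ptf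
  infer_instance

lemma range_chL (i : Fin 2) : Set.range (chL F i) =
    (Proj.basicOpen (gr F) (MvPolynomial.X i) : Set (Proj (gr F))) := by
  have h1 := Proj.opensRange_awayι (gr F) (MvPolynomial.X i) (X_mem i) one_pos
  have h2 : Set.range (Proj.awayι (gr F) (MvPolynomial.X i) (X_mem i) one_pos) =
      (Proj.basicOpen (gr F) (MvPolynomial.X i) : Set (Proj (gr F))) :=
    congrArg (fun V : (Proj (gr F)).Opens => (V : Set (Proj (gr F)))) h1
  rw [← h2, chL, ptf, Scheme.Hom.comp_base, TopCat.coe_comp, Set.range_comp,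
    Set.range_eq_univ.2 (Scheme.Hom.surjective _), Set.image_univ]

lemma cover (x : Proj (gr F)) : ∃ i, x ∈ Set.range (chL F i) := by
  have h := Proj.iSup_basicOpen_eq_top' (gr F) (fun i : Fin 2 => MvPolynomial.X i)
    (fun i => ⟨1, X_mem i⟩) (by
      rw [eq_top_iff]
      rintro x -
      induction x using MvPolynomial.induction_on with
      | C r =>
        have h0 : MvPolynomial.C r ∈ gr F 0 := MvPolynomial.isHomogeneous_C _ r
        exact (Algebra.adjoin (gr F 0) _).algebraMap_mem ⟨_, h0⟩
      | add p q hp hq => exact add_mem hp hq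
      | mul_X p i hp => exact mul_mem hp (Algebra.subset_adjoin ⟨i, rfl⟩))
  have hx : x ∈ (⊤ : (Proj (gr F)).Opens) := trivial
  rw [← h, TopologicalSpace.Opens.mem_iSup] at hx
  obtain ⟨i, hi⟩ := hx
  refine ⟨i, ?_⟩
  rw [range_chL]
  exact hi

end Pool.Agent.W363.MW
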