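import Mathlib
import Pool.Agent.W363.MW.Ev

/-! Three charts of the projective line in characteristic two, around the points `0`, `1`, `∞`. -/

open CategoryTheory Limits AlgebraicGeometry Polynomial TensorProduct

set_option backward.isDefEq.respectTransparency false

noncomputable section

universe u

namespace Pool.Agent.W363.MW

open Pool.Agent.W513.Mod

variable (K : Type u) [Field K]

lemma P1_eq : P1 K = Proj (gr K) := rfl

lemma P1str_eq : P1str K = P1h K := rfl

/-- the composition of a ring map from the polynomial ring with a chart -/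
lemma chart_comp {R : Type u} [CommRing R] [Algebra K R] (g : K[X] →ₐ[K] R) (i : Fin 2)
    (v : Fin 2 → R) (hv : ∀ k, v k = if k = i then 1 else g X)
    (hu : IsUnit (MvPolynomial.aeval v (MvPolynomial.X i : MvPolynomial (Fin 2) K))) :
    Spec.map (CommRingCat.ofHom (g : K[X] →+* R)) ≫ chL K i =
      ptf (MvPolynomial.X i) (X_mem i) one_pos v hu := by
  have h1 : (fun k => g (cv K i k)) = v := by
    ext k
    rw [hv k, cv]
    split_ifs
    · rw [map_one]
    · rfl
  subst h1
  exact ptf_comp g _ _ _ _ (cv_unit K i) hu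

/-- the localisation map -/
def loc : K[X] →ₐ[K] RR K := IsScalarTower.toAlgHom K K[X] (RR K)

lemma loc_X : loc K X = uR K := rfl

/-- the translation by one -/
def tr : K[X] →ₐ[K] K[X] := aeval (X + 1)

lemma tr_X : tr K X = X + 1 := aeval_X _

lemma two_zero [CharP K 2] : (2 : K) = 0 := CharTwo.two_eq_zero

lemma tr_tr [CharP K 2] (p : K[X]) : tr K (tr K p) = p := by
  have h : (tr K).comp (tr K) = AlgHom.id K K[X] := by
    apply Polynomial.algHom_ext
    rw [AlgHom.comp_apply, tr_X, map_add, tr_X, map_one, AlgHom.id_apply]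
    have h2 : (2 : K[X]) = 0 := by
      have := congrArg (C : K →+* K[X]) (two_zero K)
      rwa [map_ofNat, map_zero] at this
    linear_combination h2
  exact DFunLike.congr_fun h p

lemma isIso_tr [CharP K 2] : IsIso (Spec.map (CommRingCat.ofHom (tr K : K[X] →+* K[X]))) := by
  have hb : Function.Bijective (tr K) :=
    ⟨fun a b h => by rw [← tr_tr K a, h, tr_tr], fun a => ⟨tr K a, tr_tr K a⟩⟩
  let e := (RingEquiv.ofBijective (tr K : K[X] →+* K[X]) hb).toCommRingCatIso
  exact inferInstanceAs (IsIso (Spec.map e.hom))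

lemma isOpen_loc : IsOpenImmersion (Spec.map (CommRingCat.ofHom (loc K : K[X] →+* RR K))) :=
  inferInstanceAs (IsOpenImmersion (Spec.map (CommRingCat.ofHom
    (algebraMap K[X] (Localization.Away (X + 1 : K[X]))))))

lemma range_loc : Set.range (Spec.map (CommRingCat.ofHom (loc K : K[X] →+* RR K))) =
    (PrimeSpectrum.basicOpen (X + 1 : K[X]) : Set (PrimeSpectrum K[X])) :=
  PrimeSpectrum.localization_away_comap_range (RR K) (X + 1 : K[X])

/-- the three charts -/
def ww : Fin 3 → (Spec (.of (RR K)) ⟶ P1 K) :=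
  ![Spec.map (CommRingCat.ofHom (loc K : K[X] →+* RR K)) ≫ chL K 1,
    Spec.map (CommRingCat.ofHom (loc K : K[X] →+* RR K)) ≫
      Spec.map (CommRingCat.ofHom (tr K : K[X] →+* K[X])) ≫ chL K 1,
    Spec.map (CommRingCat.ofHom (loc K : K[X] →+* RR K)) ≫ chL K 0]

/-- the coordinates of the three charts -/
def cc : Fin 3 → Fin 2 → RR K := ![![uR K, 1], ![uR K + 1, 1], ![1, uR K]]

/-- the nonvanishing coordinate of the three charts -/
def jj : Fin 3 → Fin 2 := ![1, 1, 0]

lemma cc_jj (n : Fin 3) : cc K n (jj n) = 1 := by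
  fin_cases n <;> rfl

lemma cc_unit (n : Fin 3) :
    IsUnit (MvPolynomial.aeval (cc K n) (MvPolynomial.X (jj n) : MvPolynomial (Fin 2) K)) := by
  rw [MvPolynomial.aeval_X, cc_jj]
  exact isUnit_one

lemma ww_eq (n : Fin 3) :
    ww K n = ptf (MvPolynomial.X (jj n)) (X_mem (jj n)) one_pos (cc K n) (cc_unit K n) := by
  fin_cases n
  · refine chart_comp K (loc K) 1 _ (fun k => ?_) _
    fin_cases k <;> rfl
  · have h1 : Spec.map (CommRingCat.ofHom (loc K : K[X] →+* RR K)) ≫
        Spec.map (CommRingCat.ofHom (tr K : K[X] →+* K[X])) ≫ chL K 1 =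
        Spec.map (CommRingCat.ofHom (((loc K).comp (tr K) : K[X] →ₐ[K] RR K) : K[X] →+* RR K)) ≫
          chL K 1 := by
      rw [← Category.assoc, ← Spec.map_comp, ← CommRingCat.ofHom_comp]
      rfl
    refine h1.trans ?_
    refine chart_comp K _ 1 _ (fun k => ?_) _
    fin_cases k
    · change uR K + 1 = loc K (tr K X)
      rw [tr_X, map_add, map_one, loc_X]
    · rfl
  · refine chart_comp K (loc K) 0 _ (fun k => ?_) _
    fin_cases k <;> rfl

lemma ww_open [CharP K 2] (n : Fin 3) : IsOpenImmersion (ww K n) := by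
  have h1 := isOpen_loc K
  have h2 := isIso_tr K
  fin_cases n
  · exact inferInstanceAs (IsOpenImmersion
      (Spec.map (CommRingCat.ofHom (loc K : K[X] →+* RR K)) ≫ chL K 1))
  · exact inferInstanceAs (IsOpenImmersion
      (Spec.map (CommRingCat.ofHom (loc K : K[X] →+* RR K)) ≫
      Spec.map (CommRingCat.ofHom (tr K : K[X] →+* K[X])) ≫ chL K 1))
  · exact inferInstanceAs (IsOpenImmersion
      (Spec.map (CommRingCat.ofHom (loc K : K[X] →+* RR K)) ≫ chL K 0))

lemma ww_str (n : Fin 3) :
    ww K n ≫ P1str K = Spec.map (CommRingCat.ofHom (algebraMap K (RR K))) := by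
  rw [ww_eq]
  exact ptf_str _ _ _ _ _

lemma mem_or (p : PrimeSpectrum K[X]) : (X + 1 : K[X]) ∉ p.asIdeal ∨ (X : K[X]) ∉ p.asIdeal := by
  by_contra h
  push Not at h
  apply p.isPrime.ne_top
  rw [Ideal.eq_top_iff_one]
  have := Ideal.sub_mem _ h.1 h.2
  rwa [add_sub_cancel_left] at this

lemma chL1_mem [CharP K 2] (p : PrimeSpectrum K[X]) :
    ∃ n, (chL K 1) p ∈ Set.range (ww K n) := by
  by_cases hp : (X + 1 : K[X]) ∈ p.asIdeal
  · refine ⟨1, ?_⟩
    have hX : (X : K[X]) ∉ p.asIdeal := (mem_or K p).resolve_left (fun h => h hp)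
    let q : PrimeSpectrum K[X] := PrimeSpectrum.comap (tr K : K[X] →+* K[X]) p
    have hq : q ∈ Set.range (Spec.map (CommRingCat.ofHom (loc K : K[X] →+* RR K))) := by
      rw [range_loc]
      change (X + 1 : K[X]) ∉ q.asIdeal
      intro h
      apply hX
      have h3 : tr K (X + 1 : K[X]) ∈ p.asIdeal := h
      have h4 : tr K (X + 1 : K[X]) = X := by
        have := tr_tr K X
        rwa [tr_X] at this
      rwa [h4] at h3
    obtain ⟨r, hr⟩ := hq
    refine ⟨r, ?_⟩
    have h5 : (Spec.map (CommRingCat.ofHom (tr K : K[X] →+* K[X]))) q = p := by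
      apply PrimeSpectrum.ext
      change Ideal.comap (tr K : K[X] →+* K[X]) (Ideal.comap (tr K : K[X] →+* K[X]) p.asIdeal) = _
      rw [Ideal.comap_comap]
      have h6 : (tr K : K[X] →+* K[X]).comp (tr K : K[X] →+* K[X]) = RingHom.id _ := by
        exact RingHom.ext fun x => tr_tr K x
      rw [h6, Ideal.comap_id]
    change (Spec.map (CommRingCat.ofHom (loc K : K[X] →+* RR K)) ≫
      Spec.map (CommRingCat.ofHom (tr K : K[X] →+* K[X])) ≫ chL K 1) r = _
    rw [Scheme.Hom.comp_apply, Scheme.Hom.comp_apply, hr, h5]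
  · refine ⟨0, ?_⟩
    have hq : p ∈ Set.range (Spec.map (CommRingCat.ofHom (loc K : K[X] →+* RR K))) := by
      rw [range_loc]
      exact hp
    obtain ⟨r, hr⟩ := hq
    refine ⟨r, ?_⟩
    change (Spec.map (CommRingCat.ofHom (loc K : K[X] →+* RR K)) ≫ chL K 1) r = _
    rw [Scheme.Hom.comp_apply, hr]

lemma chL0_mem (p : PrimeSpectrum K[X]) (hX : (X : K[X]) ∉ p.asIdeal) :
    (chL K 0) p ∈ Set.range (chL K 1) := by
  let g : K[X] →ₐ[K] Localization.Away (X : K[X]) :=
    IsScalarTower.toAlgHom K K[X] (Localization.Away (X : K[X]))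
  let y : Localization.Away (X : K[X]) := IsLocalization.Away.invSelf (X : K[X])
  have hy : g X * y = 1 := IsLocalization.Away.mul_invSelf (X : K[X])
  let g' : K[X] →ₐ[K] Localization.Away (X : K[X]) := aeval y
  have hp : p ∈ Set.range (Spec.map (CommRingCat.ofHom
      (g : K[X] →+* Localization.Away (X : K[X])))) := by
    have h := PrimeSpectrum.localization_away_comap_range (Localization.Away (X : K[X])) (X : K[X])
    have h' : p ∈ (PrimeSpectrum.basicOpen (X : K[X]) : Set (PrimeSpectrum K[X])) := hX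
    rw [← h] at h'
    exact h'
  obtain ⟨r, hr⟩ := hp
  have key : Spec.map (CommRingCat.ofHom (g : K[X] →+* Localization.Away (X : K[X]))) ≫ chL K 0 =
      Spec.map (CommRingCat.ofHom (g' : K[X] →+* Localization.Away (X : K[X]))) ≫ chL K 1 := by
    have hu0 : IsUnit (MvPolynomial.aeval ![1, g X]
        (MvPolynomial.X 0 : MvPolynomial (Fin 2) K)) := by
      rw [MvPolynomial.aeval_X]
      exact isUnit_one
    have hu1 : IsUnit (MvPolynomial.aeval ![1, g X]
        (MvPolynomial.X 1 : MvPolynomial (Fin 2) K)) := by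
      rw [MvPolynomial.aeval_X]
      exact IsUnit.of_mul_eq_one _ hy
    have hv : (fun i => y * (![1, g X] : Fin 2 → Localization.Away (X : K[X])) i) = ![y, 1] := by
      ext i
      fin_cases i
      · exact mul_one y
      · change y * g X = 1
        rw [mul_comm]
        exact hy
    have hu2 : IsUnit (MvPolynomial.aeval
        (fun i => y * (![1, g X] : Fin 2 → Localization.Away (X : K[X])) i)
        (MvPolynomial.X 1 : MvPolynomial (Fin 2) K)) := by
      rw [hv, MvPolynomial.aeval_X]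
      exact isUnit_one
    have hu3 : IsUnit (MvPolynomial.aeval (![y, 1] : Fin 2 → Localization.Away (X : K[X]))
        (MvPolynomial.X 1 : MvPolynomial (Fin 2) K)) := by
      rw [MvPolynomial.aeval_X]
      exact isUnit_one
    rw [chart_comp K g 0 ![1, g X] (fun k => by fin_cases k <;> rfl) hu0,
      chart_comp K g' 1 ![y, 1] (fun k => by
        fin_cases k
        · change y = g' X
          exact (aeval_X y).symm
        · rfl) hu3,
      ptf_chart _ (MvPolynomial.X 1) _ _ (X_mem 1) one_pos _ hu0 hu1,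
      ← ptf_scale _ (X_mem 1) one_pos y _ hu1 hu2]
    congr 1
  refine ⟨(Spec.map (CommRingCat.ofHom (g' : K[X] →+* Localization.Away (X : K[X])))) r, ?_⟩
  rw [← Scheme.Hom.comp_apply, ← key, Scheme.Hom.comp_apply, hr]

lemma ww_cover [CharP K 2] (x : P1 K) : ∃ n, x ∈ Set.range (ww K n) := by
  obtain ⟨i, p, rfl⟩ := cover K x
  rcases (by fin_cases i <;> simp : i = 1 ∨ i = 0) with rfl | rfl
  · exact chL1_mem K p
  · by_cases hX : (X : K[X]) ∈ p.asIdeal
    · have h1 : (X + 1 : K[X]) ∉ p.asIdeal := (mem_or K p).resolve_right (fun h => h hX)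
      refine ⟨2, ?_⟩
      have hq : p ∈ Set.range (Spec.map (CommRingCat.ofHom (loc K : K[X] →+* RR K))) := by
        rw [range_loc]
        exact h1
      obtain ⟨r, hr⟩ := hq
      refine ⟨r, ?_⟩
      change (Spec.map (CommRingCat.ofHom (loc K : K[X] →+* RR K)) ≫ chL K 0) r = _
      rw [Scheme.Hom.comp_apply, hr]
    · obtain ⟨q, hq⟩ := chL0_mem K p hX
      rw [← hq]
      exact chL1_mem K q

/-- the embedding in the function field -/
lemma exists_phi [CharP K 2] (n : Fin 3) : ∃ φ : RR K →ₐ[K] KK K, φ (uR K) = uK K n := by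
  have hinj : Function.Injective (algebraMap K[X] (KK K)) := IsFractionRing.injective _ _
  have hx0 : xK K ≠ 0 := by
    intro h
    have : algebraMap K[X] (KK K) X = algebraMap K[X] (KK K) 0 := by
      rw [map_zero]
      exact h
    exact X_ne_zero (hinj this)
  have hx1 : xK K + 1 ≠ 0 := by
    intro h
    have h1 : algebraMap K[X] (KK K) (X + 1) = algebraMap K[X] (KK K) 0 := by
      rw [map_zero, map_add, map_one]
      exact h
    have h2 := hinj h1
    have h3 := (monic_X_add_C (1 : K)).ne_zero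
    rw [C_1] at h3
    exact h3 h2
  have h2K : (2 : KK K) = 0 := by
    have := congrArg (algebraMap K (KK K)) (two_zero K)
    rwa [map_ofNat, map_zero] at this
  have hc : uK K n + 1 ≠ 0 := by
    fin_cases n
    · exact hx1
    · change xK K + 1 + 1 ≠ 0
      intro h
      apply hx0
      linear_combination h - h2K
    · change (xK K)⁻¹ + 1 ≠ 0
      intro h
      apply hx1
      field_simp at h
      linear_combination h
  have hf : ∀ y : Submonoid.powers (X + 1 : K[X]),
      IsUnit ((aeval (uK K n) : K[X] →ₐ[K] KK K) y) := by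
    rintro ⟨_, n, rfl⟩
    rw [map_pow]
    refine IsUnit.pow _ ?_
    rw [map_add, aeval_X, map_one]
    exact isUnit_iff_ne_zero.2 hc
  refine ⟨IsLocalization.liftAlgHom (M := Submonoid.powers (X + 1 : K[X])) hf, ?_⟩
  rw [IsLocalization.liftAlgHom_apply, uR, IsLocalization.lift_eq]
  exact aeval_X _

lemma xK_ne : xK K ≠ 0 := by
  have hinj : Function.Injective (algebraMap K[X] (KK K)) := IsFractionRing.injective _ _
  intro h
  have : algebraMap K[X] (KK K) X = algebraMap K[X] (KK K) 0 := by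
    rw [map_zero]
    exact h
  exact X_ne_zero (hinj this)

/-- the coordinates of the generic point -/
def gc : Fin 2 → KK K := ![xK K, 1]

lemma gc_unit : IsUnit (MvPolynomial.aeval (gc K) (MvPolynomial.X 1 :
    MvPolynomial (Fin 2) K)) := by
  rw [MvPolynomial.aeval_X]
  exact isUnit_one

lemma phi_ww [CharP K 2] (φ : RR K →ₐ[K] KK K) (n : Fin 3) (h : φ (uR K) = uK K n) :
    Spec.map (CommRingCat.ofHom (φ : RR K →+* KK K)) ≫ ww K n =
      ptf (MvPolynomial.X 1) (X_mem 1) one_pos (gc K) (gc_unit K) := by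
  have h2K : (2 : KK K) = 0 := by
    have := congrArg (algebraMap K (KK K)) (two_zero K)
    rwa [map_ofNat, map_zero] at this
  have hx0 := xK_ne K
  have hu : IsUnit (MvPolynomial.aeval (fun i => φ (cc K n i))
      (MvPolynomial.X (jj n) : MvPolynomial (Fin 2) K)) := by
    rw [MvPolynomial.aeval_X, cc_jj, map_one]
    exact isUnit_one
  have h1 : Spec.map (CommRingCat.ofHom (φ : RR K →+* KK K)) ≫ ww K n =
      ptf (MvPolynomial.X (jj n)) (X_mem (jj n)) one_pos (fun i => φ (cc K n i)) hu := by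
    rw [ww_eq]
    exact ptf_comp φ _ _ _ _ (cc_unit K n) hu
  rw [h1]
  rcases (by fin_cases n <;> simp : n = 0 ∨ n = 1 ∨ n = 2) with rfl | rfl | rfl
  · have hv : (fun i => φ (cc K 0 i)) = gc K := by
      ext i
      fin_cases i
      · exact h
      · exact map_one φ
    congr 1
  · have hv : (fun i => φ (cc K 1 i)) = gc K := by
      ext i
      fin_cases i
      · change φ (uR K + 1) = xK K
        rw [map_add, map_one, h]
        change xK K + 1 + 1 = xK K
        linear_combination h2K
      · exact map_one φ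
    congr 1
  · have hv : (fun i => xK K * φ (cc K 2 i)) = gc K := by
      ext i
      fin_cases i
      · change xK K * φ 1 = xK K
        rw [map_one, mul_one]
      · change xK K * φ (uR K) = 1
        rw [h]
        exact mul_inv_cancel₀ hx0
    have hu' : IsUnit (MvPolynomial.aeval (fun i => φ (cc K 2 i))
        (MvPolynomial.X 1 : MvPolynomial (Fin 2) K)) := by
      rw [MvPolynomial.aeval_X]
      change IsUnit (φ (uR K))
      rw [h]
      exact isUnit_iff_ne_zero.2 (inv_ne_zero hx0)
    have hu2 : IsUnit (MvPolynomial.aeval (fun i => xK K * φ (cc K 2 i))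
        (MvPolynomial.X 1 : MvPolynomial (Fin 2) K)) := by
      rw [hv]
      exact gc_unit K
    rw [ptf_chart _ (MvPolynomial.X 1) _ _ (X_mem 1) one_pos _ hu hu',
      ← ptf_scale _ (X_mem 1) one_pos (xK K) _ hu' hu2]
    congr 1

/-- the quadratic form `x² + x z + z²` -/
def qf : MvPolynomial (Fin 2) K :=
  MvPolynomial.X 0 * MvPolynomial.X 0 + MvPolynomial.X 0 * MvPolynomial.X 1 +
    MvPolynomial.X 1 * MvPolynomial.X 1

lemma qf_mem : qf K ∈ gr K 2 := by
  have h := fun i j : Fin 2 => (MvPolynomial.isHomogeneous_X K i).mul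
    (MvPolynomial.isHomogeneous_X K j)
  exact ((h 0 0).add (h 0 1)).add (h 1 1)

/-- the coordinates of the three points -/
def pc : Fin 2 → (Fin 3 → K) := ![![0, 1, 1], ![1, 1, 0]]

lemma pc_val [CharP K 2] : MvPolynomial.aeval (pc K) (qf K) = 1 := by
  have h2 := two_zero K
  rw [qf, map_add, map_add, map_mul, map_mul, map_mul, MvPolynomial.aeval_X, MvPolynomial.aeval_X]
  ext n
  fin_cases n
  · change (0 : K) * 0 + 0 * 1 + 1 * 1 = 1
    ring
  · change (1 : K) * 1 + 1 * 1 + 1 * 1 = 1
    linear_combination h2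
  · change (1 : K) * 1 + 1 * 0 + 0 * 0 = 1
    ring

lemma pc_unit [CharP K 2] : IsUnit (MvPolynomial.aeval (pc K) (qf K)) := by
  rw [pc_val]
  exact isUnit_one

/-- the three points -/
def ii [CharP K 2] : Spec (.of (Fin 3 → K)) ⟶ P1 K :=
  ptf (qf K) (qf_mem K) two_pos (pc K) (pc_unit K)

lemma ii_str [CharP K 2] :
    ii K ≫ P1str K = Spec.map (CommRingCat.ofHom (algebraMap K (Fin 3 → K))) :=
  ptf_str _ _ _ _ _

lemma surj [CharP K 2] : Function.Surjective (evA (qf K) (pc K) (pc_unit K)) := by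
  have hm : ∀ (a : K) (i j : Fin 2), MvPolynomial.C a * (MvPolynomial.X i * MvPolynomial.X j) ∈
      gr K (1 • 2) := by
    intro a i j
    have := (MvPolynomial.isHomogeneous_C (Fin 2) a).mul
      ((MvPolynomial.isHomogeneous_X K i).mul (MvPolynomial.isHomogeneous_X K j))
    simpa using this
  have hmem : ∀ (a : K) (i j : Fin 2), ∃ y, evA (qf K) (pc K) (pc_unit K) y =
      fun n => a * (pc K i n * pc K j n) := by
    intro a i j
    refine ⟨HomogeneousLocalization.Away.mk (gr K) (qf_mem K) 1 _ (hm a i j), ?_⟩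
    have h1 := evA_mk _ _ (pc_unit K) (qf_mem K) 1 _ (hm a i j)
    rw [pc_val, one_pow, mul_one] at h1
    rw [h1, map_mul, map_mul, MvPolynomial.aeval_X, MvPolynomial.aeval_X, MvPolynomial.aeval_C]
    rfl
  intro z
  -- values `x² = (0,1,1)`, `x z = (0,1,0)`, `z² = (1,1,0)`
  obtain ⟨y1, h1⟩ := hmem (z 2) 0 0
  obtain ⟨y2, h2⟩ := hmem (z 1 - z 2 - z 0) 0 1
  obtain ⟨y3, h3⟩ := hmem (z 0) 1 1
  refine ⟨y1 + y2 + y3, ?_⟩
  rw [map_add, map_add, h1, h2, h3]
  ext n
  fin_cases n
  · change z 2 * ((0 : K) * 0) + (z 1 - z 2 - z 0) * (0 * 1) + z 0 * (1 * 1) = z 0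
    ring
  · change z 2 * ((1 : K) * 1) + (z 1 - z 2 - z 0) * (1 * 1) + z 0 * (1 * 1) = z 1
    ring
  · change z 2 * ((1 : K) * 1) + (z 1 - z 2 - z 0) * (1 * 0) + z 0 * (0 * 0) = z 2
    ring

lemma ii_closed [CharP K 2] : IsClosedImmersion (ii K) := by
  have h1 : IsClosedImmersion (Spec.map (CommRingCat.ofHom (evA (qf K) (pc K) (pc_unit K)))) :=
    IsClosedImmersion.spec_of_surjective _ (surj K)
  have h2 : Mono (ii K) := by
    unfold ii ptf
    infer_instance
  have h3 : IsSeparated (P1str K) := by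
    have h4 : IsSeparated (Proj.toSpecZero (gr K)) := inferInstance
    have h5 : IsSeparated (Spec.map (P1c K)) := inferInstance
    exact inferInstanceAs (IsSeparated (Proj.toSpecZero (gr K) ≫ Spec.map (P1c K)))
  have h6 : IsFinite (ii K ≫ P1str K) := by
    rw [ii_str]
    rw [IsFinite.SpecMap_iff]
    change (algebraMap K (Fin 3 → K)).Finite
    rw [RingHom.finite_algebraMap]
    infer_instance
  have h7 : IsFinite (ii K) := MorphismProperty.of_postcomp (W := @IsFinite) (W' := @IsSeparated)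
    (ii K) (P1str K) h3 h6
  exact (IsClosedImmersion.iff_isFinite_and_mono _).2 ⟨h7, h2⟩

lemma ii_pt [CharP K 2] (n : Fin 3) (e : RR K →ₐ[K] K) (he : e (uR K) = 0) :
    Spec.map (CommRingCat.ofHom (Pi.evalRingHom (fun _ => K) n)) ≫ ii K =
      Spec.map (CommRingCat.ofHom (e : RR K →+* K)) ≫ ww K n := by
  let g : (Fin 3 → K) →ₐ[K] K := Pi.evalAlgHom K (fun _ : Fin 3 => K) n
  have hval : ∀ i, g (pc K i) = e (cc K n i) := by
    intro i
    rcases (by fin_cases n <;> simp : n = 0 ∨ n = 1 ∨ n = 2) with rfl | rfl | rfl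
    · fin_cases i
      · exact he.symm
      · exact (map_one e).symm
    · fin_cases i
      · change (1 : K) = e (uR K + 1)
        rw [map_add, he, map_one, zero_add]
      · exact (map_one e).symm
    · fin_cases i
      · exact (map_one e).symm
      · exact he.symm
  have hfun : (fun i => g (pc K i)) = fun i => e (cc K n i) := funext hval
  have hu : IsUnit (MvPolynomial.aeval (fun i => g (pc K i)) (qf K)) := by
    have h1 : MvPolynomial.aeval (fun i => g (pc K i)) (qf K) =
        g (MvPolynomial.aeval (pc K) (qf K)) := by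
      have h2 : (MvPolynomial.aeval (fun i => g (pc K i)) : MvPolynomial (Fin 2) K →ₐ[K] K) =
          g.comp (MvPolynomial.aeval (pc K)) := by
        apply MvPolynomial.algHom_ext
        intro i
        rw [MvPolynomial.aeval_X, AlgHom.comp_apply, MvPolynomial.aeval_X]
      rw [h2, AlgHom.comp_apply]
    rw [h1, pc_val, map_one]
    exact isUnit_one
  have hu' : IsUnit (MvPolynomial.aeval (fun i => e (cc K n i)) (qf K)) := by
    rw [← hfun]
    exact hu
  have hu2 : IsUnit (MvPolynomial.aeval (fun i => e (cc K n i))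
      (MvPolynomial.X (jj n) : MvPolynomial (Fin 2) K)) := by
    rw [MvPolynomial.aeval_X, cc_jj, map_one]
    exact isUnit_one
  have h1 : Spec.map (CommRingCat.ofHom (Pi.evalRingHom (fun _ => K) n)) ≫ ii K =
      ptf (qf K) (qf_mem K) two_pos (fun i => g (pc K i)) hu :=
    ptf_comp g _ _ _ _ (pc_unit K) hu
  have h2 : Spec.map (CommRingCat.ofHom (e : RR K →+* K)) ≫ ww K n =
      ptf (MvPolynomial.X (jj n)) (X_mem (jj n)) one_pos (fun i => e (cc K n i)) hu2 := by
    rw [ww_eq]
    exact ptf_comp e _ _ _ _ (cc_unit K n) hu2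
  rw [h1, h2, ptf_chart _ (qf K) _ _ (qf_mem K) two_pos _ hu2 hu']
  congr 1

theorem P1_charts (K : Type u) [Field K] [CharP K 2] : ∃ (w : Fin 3 → (Spec (.of (RR K)) ⟶ P1 K))
    (φ : Fin 3 → (RR K →ₐ[K] KK K)) (i : Spec (.of (Fin 3 → K)) ⟶ P1 K),
    (∀ n, IsOpenImmersion (w n)) ∧
    (∀ n, w n ≫ P1str K = Spec.map (CommRingCat.ofHom (algebraMap K (RR K)))) ∧
    (∀ x : P1 K, ∃ n, x ∈ Set.range (w n)) ∧
    (∀ n, φ n (uR K) = uK K n) ∧
    (∀ m n, Spec.map (CommRingCat.ofHom (φ m : RR K →+* KK K)) ≫ w m =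
      Spec.map (CommRingCat.ofHom (φ n : RR K →+* KK K)) ≫ w n) ∧
    IsClosedImmersion i ∧
    (i ≫ P1str K = Spec.map (CommRingCat.ofHom (algebraMap K (Fin 3 → K)))) ∧
    (∀ n, ∀ e : RR K →ₐ[K] K, e (uR K) = 0 →
      Spec.map (CommRingCat.ofHom (Pi.evalRingHom (fun _ => K) n)) ≫ i =
        Spec.map (CommRingCat.ofHom (e : RR K →+* K)) ≫ w n) := by
  choose φ hφ using exists_phi K
  refine ⟨ww K, φ, ii K, ww_open K, ww_str K, ww_cover K, hφ, ?_, ii_closed K, ii_str K,
    ii_pt K⟩
  intro m n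
  rw [phi_ww K (φ m) m (hφ m), phi_ww K (φ n) n (hφ n)]

end Pool.Agent.W363.MW
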