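import Mathlib
import Pool.Agent.W513.Mod.Ring
import Pool.Agent.W417.MW.AS

/-! The covering curve is smooth of relative dimension one. -/

open CategoryTheory Limits AlgebraicGeometry Polynomial TensorProduct

set_option backward.isDefEq.respectTransparency false
set_option linter.unusedSectionVars false

noncomputable section

universe u

namespace Pool.Agent.W363.MW

open Pool.Agent.W513.Mod

/-- The affine line is standard smooth of relative dimension one. -/
lemma line (K : Type u) [Field K] : Algebra.IsStandardSmoothOfRelativeDimension 1 K K[X] := by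
  let b : Module.Basis Unit K[X] (Ω[K[X]⁄K]) :=
    (Module.Basis.singleton Unit K[X]).map (KaehlerDifferential.polynomialEquiv K).symm
  have hfp : Algebra.FinitePresentation K K[X] := inferInstance
  have hfs : Algebra.FormallySmooth K K[X] := inferInstance
  have h1 : Algebra.IsStandardSmooth K K[X] := by
    refine Algebra.IsStandardSmooth.of_basis_kaehlerDifferential b ?_
    rintro _ ⟨i, rfl⟩
    refine ⟨X, ?_⟩
    change KaehlerDifferential.D K K[X] X = (KaehlerDifferential.polynomialEquiv K).symm
      ((Module.Basis.singleton Unit K[X]) i)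
    rw [Module.Basis.singleton_apply, KaehlerDifferential.polynomialEquiv_symm, one_smul]
  rw [Algebra.IsStandardSmoothOfRelativeDimension.iff_of_isStandardSmooth]
  rw [(KaehlerDifferential.polynomialEquiv K).rank_eq, Nat.cast_one]
  exact Module.rank_self K[X]

section

variable {K : Type u} [Field K] [IsAlgClosed K] [CharP K 2] (q d : RR K)

lemma s_rel : sB q d ^ 2 + algebraMap (RR K) (BB (RR K) q d) q * sB q d +
    algebraMap (RR K) (BB (RR K) q d) q = 0 := by
  have h : (AdjoinRoot.root (X ^ 2 + C q * X + C q : (RR K)[X])) ^ 2 +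
      algebraMap (RR K) (B1 (RR K) q) q * AdjoinRoot.root (X ^ 2 + C q * X + C q : (RR K)[X]) +
      algebraMap (RR K) (B1 (RR K) q) q = 0 := by
    have h0 := AdjoinRoot.eval₂_root (X ^ 2 + C q * X + C q : (RR K)[X])
    simp only [eval₂_add, eval₂_mul, eval₂_pow, eval₂_X, eval₂_C] at h0
    exact h0
  have h1 := congrArg (algebraMap (B1 (RR K) q) (BB (RR K) q d)) h
  rw [map_add, map_add, map_mul, map_pow, map_zero,
    ← IsScalarTower.algebraMap_apply (RR K) (B1 (RR K) q) (BB (RR K) q d)] at h1
  exact h1

lemma v_rel : vB q d ^ 2 + vB q d + algebraMap (RR K) (BB (RR K) q d) d = 0 := by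
  have h0 := AdjoinRoot.eval₂_root (X ^ 2 + X + C (algebraMap (RR K) (B1 (RR K) q) d) :
    (B1 (RR K) q)[X])
  simp only [eval₂_add, eval₂_pow, eval₂_X, eval₂_C] at h0
  exact h0

lemma two_B : (2 : BB (RR K) q d) = 0 := by
  have h2 : (2 : K) = 0 := CharTwo.two_eq_zero
  have := congrArg (algebraMap K (BB (RR K) q d)) h2
  rwa [map_ofNat, map_zero] at this

/-- induction on elements -/
lemma ind (P : BB (RR K) q d → Prop) (hR : ∀ r : RR K, P (algebraMap (RR K) _ r))
    (hs : P (sB q d)) (hv : P (vB q d)) (hadd : ∀ x y, P x → P y → P (x + y))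
    (hmul : ∀ x y, P x → P y → P (x * y)) (z : BB (RR K) q d) : P z := by
  have hNR : Nontrivial (RR K) := by
    have h : Submonoid.powers (X + 1 : K[X]) ≤ nonZeroDivisors K[X] := by
      apply powers_le_nonZeroDivisors_of_noZeroDivisors
      have := (monic_X_add_C (1 : K)).ne_zero
      rwa [C_1] at this
    exact (IsLocalization.isDomain_localization h).toNontrivial
  have h1 : ∀ x : B1 (RR K) q, P (algebraMap (B1 (RR K) q) (BB (RR K) q d) x) := by
    intro x
    obtain ⟨a, b, rfl⟩ := Pool.Agent.W417.MW.rep _ (Pool.Agent.W417.MW.monic_quad q q).1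
      (Pool.Agent.W417.MW.monic_quad q q).2 x
    rw [map_add, map_mul]
    have e1 : ∀ r : RR K, algebraMap (B1 (RR K) q) (BB (RR K) q d) (AdjoinRoot.of _ r) =
        algebraMap (RR K) (BB (RR K) q d) r := fun r => rfl
    rw [e1, e1]
    exact hadd _ _ (hR a) (hmul _ _ (hR b) hs)
  by_cases hN : Nontrivial (B1 (RR K) q)
  · obtain ⟨a, b, rfl⟩ := Pool.Agent.W417.MW.rep _
      (Pool.Agent.W417.MW.monic_quad' (algebraMap (RR K) (B1 (RR K) q) d)).1
      (Pool.Agent.W417.MW.monic_quad' (algebraMap (RR K) (B1 (RR K) q) d)).2 z
    exact hadd _ _ (h1 a) (hmul _ _ (h1 b) hv)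
  · rw [not_nontrivial_iff_subsingleton] at hN
    have : Subsingleton (BB (RR K) q d) := by
      constructor
      intro a b
      have h3 : (1 : BB (RR K) q d) = 0 := by
        rw [← map_one (algebraMap (B1 (RR K) q) (BB (RR K) q d)), Subsingleton.elim
          (1 : B1 (RR K) q) 0, map_zero]
      rw [← mul_one a, ← mul_one b, h3, mul_zero, mul_zero]
    rw [Subsingleton.elim z (vB q d)]
    exact hv

/-- derivations of `BB` which kill `s` vanish -/
lemma der_zero (hdq : ∀ (M : Type u) [AddCommGroup M] [Module (RR K) M] [Module K M]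
      [IsScalarTower K (RR K) M] (D : Derivation K (RR K) M), D q = 0 → D = 0)
    {M : Type u} [AddCommGroup M] [Module (BB (RR K) q d) M] (D : BB (RR K) q d →+ M)
    (hmul : ∀ x y, D (x * y) = x • D y + y • D x) (hK : ∀ c : K, D (algebraMap K _ c) = 0)
    (hs : D (sB q d) = 0) (z : BB (RR K) q d) : D z = 0 := by
  have h2 := two_B q d
  have htwo : ∀ m : M, m + m = 0 := by
    intro m
    have : (2 : BB (RR K) q d) • m = 0 := by rw [h2, zero_smul]
    rwa [two_smul] at this
  have hsq : ∀ x, D (x ^ 2) = 0 := by
    intro x
    rw [pow_two x, hmul]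
    exact htwo _
  have hq : D (algebraMap (RR K) (BB (RR K) q d) q) = 0 := by
    have h1 := congrArg D (s_rel q d)
    rw [map_add, map_add, hsq, hmul, hs, smul_zero, zero_add, zero_add, map_zero] at h1
    have h3 : (sB q d + 1) • D (algebraMap (RR K) (BB (RR K) q d) q) = 0 := by
      rw [add_smul, one_smul]
      exact h1
    have h4 : (sB q d + algebraMap (RR K) (BB (RR K) q d) q + 1) * (sB q d + 1) = 1 := by
      linear_combination s_rel q d + sB q d * h2
    have h5 := congrArg (fun m => (sB q d + algebraMap (RR K) (BB (RR K) q d) q + 1) • m) h3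
    simp only [smul_smul, h4, one_smul, smul_zero] at h5
    exact h5
  have hR : ∀ r : RR K, D (algebraMap (RR K) (BB (RR K) q d) r) = 0 := by
    let _ : Module (RR K) M := Module.compHom M (algebraMap (RR K) (BB (RR K) q d))
    let _ : Module K M := Module.compHom M (algebraMap K (BB (RR K) q d))
    have hst : IsScalarTower K (RR K) M := by
      constructor
      intro a r m
      change algebraMap (RR K) (BB (RR K) q d) (a • r) • m =
        algebraMap K (BB (RR K) q d) a • algebraMap (RR K) (BB (RR K) q d) r • m
      rw [Algebra.smul_def, map_mul, smul_smul,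
        ← IsScalarTower.algebraMap_apply K (RR K) (BB (RR K) q d)]
    have hsm : ∀ (c : K) (m : M), c • m = algebraMap K (BB (RR K) q d) c • m :=
      fun _ _ => rfl
    let D1 : Derivation K (RR K) M :=
      { toFun := fun r => D (algebraMap (RR K) (BB (RR K) q d) r)
        map_add' := fun x y => by rw [map_add, map_add]
        map_smul' := fun c x => by
          rw [RingHom.id_apply, hsm, Algebra.smul_def, map_mul, hmul,
            ← IsScalarTower.algebraMap_apply K (RR K) (BB (RR K) q d), hK, smul_zero, add_zero]
        map_one_eq_zero' := by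
          change D (algebraMap (RR K) (BB (RR K) q d) 1) = 0
          rw [map_one, ← map_one (algebraMap K (BB (RR K) q d)), hK]
        leibniz' := fun x y => by
          change D (algebraMap (RR K) (BB (RR K) q d) (x * y)) =
            algebraMap (RR K) (BB (RR K) q d) x • D (algebraMap (RR K) (BB (RR K) q d) y) +
            algebraMap (RR K) (BB (RR K) q d) y • D (algebraMap (RR K) (BB (RR K) q d) x)
          rw [map_mul, hmul] }
    have h := hdq M D1 hq
    intro r
    exact DFunLike.congr_fun h r
  have hv : D (vB q d) = 0 := by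
    have h1 := congrArg D (v_rel q d)
    rw [map_add, map_add, hsq, hR, zero_add, add_zero, map_zero] at h1
    exact h1
  refine ind q d (fun z => D z = 0) hR hs hv ?_ ?_ z
  · intro x y hx hy
    rw [map_add, hx, hy, add_zero]
  · intro x y hx hy
    rw [hmul, hx, hy, smul_zero, smul_zero, add_zero]

lemma nt : Nontrivial (RR K) := by
  have h : Submonoid.powers (X + 1 : K[X]) ≤ nonZeroDivisors K[X] := by
    apply powers_le_nonZeroDivisors_of_noZeroDivisors
    have := (monic_X_add_C (1 : K)).ne_zero
    rwa [C_1] at this
  exact (IsLocalization.isDomain_localization h).toNontrivial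

lemma s_trans [IsDomain (BB (RR K) q d)] : Transcendental K (sB q d) := by
  intro halg
  have hNR : Nontrivial (RR K) := nt
  have hNB : Nontrivial (B1 (RR K) q) :=
    (algebraMap (B1 (RR K) q) (BB (RR K) q d)).domain_nontrivial
  -- an algebraic element of a domain over an algebraically closed field is a constant
  have hint : IsIntegral K (sB q d) := halg.isIntegral
  have hirr : Irreducible (minpoly K (sB q d)) := minpoly.irreducible hint
  have hdeg := IsAlgClosed.degree_eq_one_of_irreducible K hirr
  obtain ⟨c, hc⟩ := minpoly.mem_range_of_degree_eq_one K (sB q d) hdeg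
  have h1 : AdjoinRoot.mk (X ^ 2 + X + C (algebraMap (RR K) (B1 (RR K) q) d))
      (C (AdjoinRoot.root (X ^ 2 + C q * X + C q : (RR K)[X]) -
        algebraMap K (B1 (RR K) q) c)) = 0 := by
    change algebraMap (B1 (RR K) q) (BB (RR K) q d) (AdjoinRoot.root _ -
      algebraMap K (B1 (RR K) q) c) = 0
    rw [map_sub, ← IsScalarTower.algebraMap_apply K (B1 (RR K) q) (BB (RR K) q d), hc]
    exact sub_self _
  have h2 : AdjoinRoot.root (X ^ 2 + C q * X + C q : (RR K)[X]) -
        algebraMap K (B1 (RR K) q) c = 0 := by
    by_contra h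
    have hm := Pool.Agent.W417.MW.monic_quad' (algebraMap (RR K) (B1 (RR K) q) d)
    refine AdjoinRoot.mk_ne_zero_of_degree_lt hm.1 (C_ne_zero.2 h) ?_ h1
    rw [degree_C h, degree_eq_natDegree hm.1.ne_zero, hm.2]
    norm_num
  have h3 : AdjoinRoot.mk (X ^ 2 + C q * X + C q : (RR K)[X]) (X - C (algebraMap K (RR K) c)) = 0 := by
    rw [map_sub]
    exact h2
  have hm := Pool.Agent.W417.MW.monic_quad q q
  refine AdjoinRoot.mk_ne_zero_of_degree_lt hm.1 (X_sub_C_ne_zero _) ?_ h3
  rw [degree_X_sub_C, degree_eq_natDegree hm.1.ne_zero, hm.2]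
  norm_num

end

/-- a domain which is unramified over the affine line through a transcendental element -/
lemma smooth_of {K B : Type u} [Field K] [CommRing B] [IsDomain B] [Algebra K B]
    (hft : Algebra.FiniteType K B) (s : B) (hs : Transcendental K s)
    (hder : ∀ (M : Type u) [AddCommGroup M] [Module B M] (D : B →+ M),
      (∀ x y, D (x * y) = x • D y + y • D x) → (∀ c : K, D (algebraMap K _ c) = 0) →
      D s = 0 → ∀ z, D z = 0) :
    SmoothOfRelativeDimension 1 (Spec.map (CommRingCat.ofHom (algebraMap K B))) := by
  let _ : Algebra K[X] B := (aeval s : K[X] →ₐ[K] B).toAlgebra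
  have hst : IsScalarTower K K[X] B := by
    apply IsScalarTower.of_algebraMap_eq
    intro c
    exact ((aeval s : K[X] →ₐ[K] B).commutes c).symm
  have haev : ∀ p : K[X], algebraMap K[X] B p = aeval s p := fun _ => rfl
  -- finite presentation
  have hft6 : Algebra.FiniteType K[X] B :=
    Algebra.FiniteType.of_restrictScalars_finiteType K K[X] B
  have hfp : Algebra.FinitePresentation K[X] B :=
    Algebra.FinitePresentation.of_finiteType.1 hft6
  -- flatness
  have hinj : Function.Injective (algebraMap K[X] B) := by
    rw [injective_iff_map_eq_zero]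
    intro p hp
    by_contra hp0
    exact hs ⟨p, hp0, hp⟩
  have htf : Module.IsTorsionFree K[X] B := by
    rw [Module.isTorsionFree_iff_smul_eq_zero]
    intro r m h
    rw [Algebra.smul_def] at h
    rcases mul_eq_zero.1 h with h | h
    · exact Or.inl (hinj (by rw [h, map_zero]))
    · exact Or.inr h
  have hflat : Module.Flat K[X] B := inferInstance
  -- unramified
  have hun : Algebra.FormallyUnramified K[X] B := by
    rw [Algebra.formallyUnramified_iff]
    have hD : ∀ z : B, KaehlerDifferential.D K[X] B z = 0 := by
      intro z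
      let D : B →+ Ω[B⁄K[X]] := (KaehlerDifferential.D K[X] B).toLinearMap.toAddMonoidHom
      refine hder _ D (fun x y => ?_) (fun c => ?_) ?_ z
      · exact (KaehlerDifferential.D K[X] B).leibniz x y
      · have h1 : algebraMap K B c = algebraMap K[X] B (C c) :=
          IsScalarTower.algebraMap_apply K K[X] B c
        rw [h1]
        exact (KaehlerDifferential.D K[X] B).map_algebraMap _
      · have h1 : s = algebraMap K[X] B X := by
          rw [haev, aeval_X]
        rw [h1]
        exact (KaehlerDifferential.D K[X] B).map_algebraMap _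
    rw [← not_nontrivial_iff_subsingleton]
    intro hN
    have h2 := KaehlerDifferential.span_range_derivation K[X] B
    have h3 : Set.range (KaehlerDifferential.D K[X] B) ⊆ {0} := by
      rintro _ ⟨z, rfl⟩
      exact hD z
    have h4 := Submodule.span_mono (R := B) h3
    rw [h2, Submodule.span_zero_singleton] at h4
    exact top_ne_bot (le_bot_iff.1 h4)
  have het : Algebra.Etale K[X] B := Algebra.Etale.of_formallyUnramified_of_flat
  have hs0 : Algebra.IsStandardSmoothOfRelativeDimension 0 K[X] B :=
    Algebra.Etale.iff_isStandardSmoothOfRelativeDimension_zero.1 het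
  have hs1 := line K
  have hs2 : Algebra.IsStandardSmoothOfRelativeDimension (0 + 1) K B :=
    Algebra.IsStandardSmoothOfRelativeDimension.trans 1 0 K K[X] B
  rw [HasRingHomProperty.Spec_iff (P := @SmoothOfRelativeDimension 1)]
  apply RingHom.locally_of RingHom.isStandardSmoothOfRelativeDimension_respectsIso
  rw [zero_add] at hs2
  exact (RingHom.isStandardSmoothOfRelativeDimension_algebraMap 1).2 hs2

theorem smooth_BB {K : Type u} [Field K] [IsAlgClosed K] [CharP K 2] (q d : RR K)
    (hdq : ∀ (M : Type u) [AddCommGroup M] [Module (RR K) M] [Module K M]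
      [IsScalarTower K (RR K) M] (D : Derivation K (RR K) M), D q = 0 → D = 0)
    [IsDomain (BB (RR K) q d)] :
    SmoothOfRelativeDimension 1 (Spec.map (CommRingCat.ofHom (algebraMap K (BB (RR K) q d)))) := by
  have hft1 : Algebra.FiniteType K (RR K) := by
    have h1 : Algebra.FiniteType K[X] (RR K) :=
      IsLocalization.finiteType_of_monoid_fg (Submonoid.powers (X + 1 : K[X])) (RR K)
    exact Algebra.FiniteType.trans (inferInstanceAs (Algebra.FiniteType K K[X])) h1
  have hft2 : Algebra.FiniteType (RR K) (B1 (RR K) q) := inferInstance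
  have hft3 : Algebra.FiniteType (B1 (RR K) q) (BB (RR K) q d) := inferInstance
  have hft4 : Algebra.FiniteType K (B1 (RR K) q) := Algebra.FiniteType.trans hft1 hft2
  have hft5 : Algebra.FiniteType K (BB (RR K) q d) := Algebra.FiniteType.trans hft4 hft3
  exact smooth_of hft5 (sB q d) (s_trans q d) (fun M _ _ D hmul hK hs z =>
    der_zero q d hdq D hmul hK hs z)

end Pool.Agent.W363.MW
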